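import Pool.Agent.helper13.U4.Spec

set_option autoImplicit false

namespace Pool.Agent.U4

open Pool.Agent.UL

/-- the sequence on the natural numbers -/
def EXF_f (v : ℕ) : ℕ → Bool
  | 0 => true
  | n + 1 => ex1 (if 2 ≤ n + 1 then EXF_f v (n + 1 - 2) else false)
      (if v + 2 ≤ n + 1 then EXF_f v (n + 1 - (v + 2)) else false)
      (if 2 * v + 2 ≤ n + 1 then EXF_f v (n + 1 - (2 * v + 2)) else false)
termination_by n => n
decreasing_by all_goals omega

/-- the sequence on the integers -/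
def EXF_F (v : ℕ) (m : ℤ) : Bool := if m < 0 then false else EXF_f v m.toNat

theorem EXF_sub (v n c : ℕ) :
    EXF_F v (((n + 1 : ℕ) : ℤ) - (c : ℤ)) = if c ≤ n + 1 then EXF_f v (n + 1 - c) else false := by
  unfold EXF_F
  by_cases h : c ≤ n + 1
  · rw [if_pos h, if_neg (by omega)]
    congr 1
    omega
  · rw [if_neg h, if_pos (by omega)]

/-- Row EXF -/
theorem EXF : EXF_stmt := by
  intro v
  refine ⟨EXF_F v, ⟨fun m hm => ?_, ?_, fun m hm => ?_⟩⟩
  · unfold EXF_F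
    rw [if_pos hm]
  · unfold EXF_F
    rw [if_neg (by norm_num)]
    show EXF_f v 0 = true
    rw [EXF_f]
  · obtain ⟨n, rfl⟩ : ∃ n : ℕ, m = ((n + 1 : ℕ) : ℤ) := ⟨(m - 1).toNat, by omega⟩
    have h1 := EXF_sub v n 2
    have h2 := EXF_sub v n (v + 2)
    have h3 := EXF_sub v n (2 * v + 2)
    have e2 : ((n + 1 : ℕ) : ℤ) - ((v + 2 : ℕ) : ℤ) = ((n + 1 : ℕ) : ℤ) - v - 2 := by
      push_cast
      ring
    have e3 : ((n + 1 : ℕ) : ℤ) - ((2 * v + 2 : ℕ) : ℤ) = ((n + 1 : ℕ) : ℤ) - 2 * v - 2 := by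
      push_cast
      ring
    rw [e2] at h2
    rw [e3] at h3
    have h1' : EXF_F v (((n + 1 : ℕ) : ℤ) - 2) = if 2 ≤ n + 1 then EXF_f v (n + 1 - 2) else false := h1
    rw [h1', h2, h3]
    have h4 : EXF_F v ((n + 1 : ℕ) : ℤ) = EXF_f v (n + 1) := by
      unfold EXF_F
      rw [if_neg (by omega), Int.toNat_natCast]
    rw [h4, EXF_f]

end Pool.Agent.U4
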