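import Pool.Agent.helper13.U4.Spec

set_option autoImplicit false

namespace Pool.Agent.U4

open Pool.Agent.UL

theorem HC7_t1 {a b c : Bool} (ha : a = true) (hb : b = false) (hc : c = false) : ex1 a b c = true := by
  subst ha hb hc
  rfl

theorem HC7_t2 {a b c : Bool} (ha : a = false) (hb : b = true) (hc : c = false) : ex1 a b c = true := by
  subst ha hb hc
  rfl

theorem HC7_t3 {a b c : Bool} (ha : a = false) (hb : b = false) (hc : c = true) : ex1 a b c = true := by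
  subst ha hb hc
  rfl

theorem HC7_f12 {a b c : Bool} (ha : a = true) (hb : b = true) : ex1 a b c = false := by
  subst ha hb
  cases c <;> rfl

theorem HC7_f13 {a b c : Bool} (ha : a = true) (hc : c = true) : ex1 a b c = false := by
  subst ha hc
  cases b <;> rfl

theorem HC7_f23 {a b c : Bool} (hb : b = true) (hc : c = true) : ex1 a b c = false := by
  subst hb hc
  cases a <;> rfl

theorem HC7_f0 {a b c : Bool} (ha : a = false) (hb : b = false) (hc : c = false) : ex1 a b c = false := by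
  subst ha hb hc
  rfl

theorem HC7_T {b : Bool} {P : Prop} (h : b = true ↔ P) (hP : P) : b = true := h.2 hP

theorem HC7_F {b : Bool} {P : Prop} (h : b = true ↔ P) (hP : ¬ P) : b = false := by
  cases b
  · rfl
  · exact absurd (h.1 rfl) hP

/-- the first block -/
theorem HC7_A (h v : ℕ) (a5 a6 a7 a8 : ℕ → Bool) (hv : h ≤ v)
    (s7 : ∀ t < v, a7 (t + 1) = ex1 (a7 t) (a6 t) (a5 t))
    (s8 : ∀ t < v, a8 (t + 1) = ex1 (a8 t) (a7 t) (a6 t))
    (i7 : a7 0 = false) (i8 : a8 0 = false) (f5 : ∀ t < h, a5 t = false)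
    (f6 : ∀ t < h, t = 0 ∨ t % 4 = 1 ∨ t % 4 = 2 → a6 t = true)
    (g6 : ∀ t < h, t ≠ 0 → t % 4 = 0 ∨ t % 4 = 3 → a6 t = false) :
    ∀ t, t < h → (1 ≤ t → t % 4 ≠ 2 → a7 t = true) ∧ (t = 0 ∨ t % 4 = 2 → a7 t = false) ∧
      (t % 2 = 1 → a8 t = true) ∧ (t % 2 = 0 → a8 t = false) := by
  intro t
  induction t with
  | zero => exact fun _ => ⟨fun h1 => absurd h1 (by norm_num), fun _ => i7, fun h1 => absurd h1 (by norm_num), fun _ => i8⟩
  | succ t ih =>
    intro ht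
    obtain ⟨p1, p2, p3, p4⟩ := ih (by omega)
    have e7 := s7 t (by omega)
    have e8 := s8 t (by omega)
    have e5 := f5 t (by omega)
    by_cases h0 : t = 0
    · have b6 := f6 t (by omega) (Or.inl h0)
      have b7 := p2 (Or.inl h0)
      have b8 := p4 (by omega)
      have c7 : a7 (t + 1) = true := by rw [e7]; exact HC7_t2 b7 b6 e5
      have c8 : a8 (t + 1) = true := by rw [e8]; exact HC7_t3 b8 b7 b6
      exact ⟨fun _ _ => c7, fun h1 => absurd h1 (by omega), fun _ => c8, fun h1 => absurd h1 (by omega)⟩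
    have h4 : t % 4 = 0 ∨ t % 4 = 1 ∨ t % 4 = 2 ∨ t % 4 = 3 := by omega
    rcases h4 with h4 | h4 | h4 | h4
    · have b6 := g6 t (by omega) h0 (Or.inl h4)
      have b7 := p1 (by omega) (by omega)
      have b8 := p4 (by omega)
      have c7 : a7 (t + 1) = true := by rw [e7]; exact HC7_t1 b7 b6 e5
      have c8 : a8 (t + 1) = true := by rw [e8]; exact HC7_t2 b8 b7 b6
      exact ⟨fun _ _ => c7, fun h1 => absurd h1 (by omega), fun _ => c8, fun h1 => absurd h1 (by omega)⟩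
    · have b6 := f6 t (by omega) (Or.inr (Or.inl h4))
      have b7 := p1 (by omega) (by omega)
      have b8 := p3 (by omega)
      have c7 : a7 (t + 1) = false := by rw [e7]; exact HC7_f12 b7 b6
      have c8 : a8 (t + 1) = false := by rw [e8]; exact HC7_f12 b8 b7
      exact ⟨fun _ h1 => absurd h1 (by omega), fun _ => c7, fun h1 => absurd h1 (by omega), fun _ => c8⟩
    · have b6 := f6 t (by omega) (Or.inr (Or.inr h4))
      have b7 := p2 (Or.inr h4)
      have b8 := p4 (by omega)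
      have c7 : a7 (t + 1) = true := by rw [e7]; exact HC7_t2 b7 b6 e5
      have c8 : a8 (t + 1) = true := by rw [e8]; exact HC7_t3 b8 b7 b6
      exact ⟨fun _ _ => c7, fun h1 => absurd h1 (by omega), fun _ => c8, fun h1 => absurd h1 (by omega)⟩
    · have b6 := g6 t (by omega) h0 (Or.inr h4)
      have b7 := p1 (by omega) (by omega)
      have b8 := p3 (by omega)
      have c7 : a7 (t + 1) = true := by rw [e7]; exact HC7_t1 b7 b6 e5
      have c8 : a8 (t + 1) = false := by rw [e8]; exact HC7_f12 b8 b7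
      exact ⟨fun _ _ => c7, fun h1 => absurd h1 (by omega), fun h1 => absurd h1 (by omega), fun _ => c8⟩

/-- the block 2 -/
theorem HC7_B (h u : ℕ) (a5 a6 a7 : ℕ → Bool)
    (s7 : ∀ d < h, a7 (u + (d + 1)) = ex1 (a7 (u + d)) (a6 (u + d)) (a5 (u + d)))
    (z5 : a5 (u + 0) = true) (z6 : a6 (u + 0) = true)
    (f5 : ∀ d < h, d % 2 = 0 → a5 (u + d) = true) (g5 : ∀ d < h, d % 2 = 1 → a5 (u + d) = false)
    (g6 : ∀ d < h, d ≠ 0 → a6 (u + d) = false) :
    ∀ d, 1 ≤ d → d ≤ h → (d % 4 = 0 ∨ d % 4 = 3 → a7 (u + d) = true) ∧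
      (d % 4 = 1 ∨ d % 4 = 2 → a7 (u + d) = false) := by
  intro d
  induction d with
  | zero => intro h1; omega
  | succ d ih =>
    intro _ hd
    have e7 := s7 d (by omega)
    by_cases h0 : d = 0
    · subst h0
      have c7 : a7 (u + (0 + 1)) = false := by rw [e7]; exact HC7_f23 z6 z5
      exact ⟨fun h1 => absurd h1 (by norm_num), fun _ => c7⟩
    obtain ⟨p1, p2⟩ := ih (by omega) (by omega)
    have b6 := g6 d (by omega) h0
    have h4 : d % 4 = 0 ∨ d % 4 = 1 ∨ d % 4 = 2 ∨ d % 4 = 3 := by omega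
    rcases h4 with h4 | h4 | h4 | h4
    · have b5 := f5 d (by omega) (by omega)
      have b7 := p1 (Or.inl h4)
      have c7 : a7 (u + (d + 1)) = false := by rw [e7]; exact HC7_f13 b7 b5
      exact ⟨fun h1 => absurd h1 (by omega), fun _ => c7⟩
    · have b5 := g5 d (by omega) (by omega)
      have b7 := p2 (Or.inl h4)
      have c7 : a7 (u + (d + 1)) = false := by rw [e7]; exact HC7_f0 b7 b6 b5
      exact ⟨fun h1 => absurd h1 (by omega), fun _ => c7⟩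
    · have b5 := f5 d (by omega) (by omega)
      have b7 := p2 (Or.inr h4)
      have c7 : a7 (u + (d + 1)) = true := by rw [e7]; exact HC7_t3 b7 b6 b5
      exact ⟨fun _ => c7, fun h1 => absurd h1 (by omega)⟩
    · have b5 := g5 d (by omega) (by omega)
      have b7 := p1 (Or.inr h4)
      have c7 : a7 (u + (d + 1)) = true := by rw [e7]; exact HC7_t1 b7 b6 b5
      exact ⟨fun _ => c7, fun h1 => absurd h1 (by omega)⟩

/-- Row HC7 -/
theorem HC7 (h1 : HC3_stmt) : HC7_stmt := by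
  intro k q h v x hP hk hX
  obtain ⟨hc5, hc6⟩ := h1 k q h v x hP hk hX
  have hh8 : h % 8 = 0 ∧ 8 ≤ h := by
    obtain ⟨j, rfl⟩ := Nat.exists_eq_add_of_le hk
    rw [hP.hh, pow_add]
    have h2 : 1 ≤ 2 ^ j := Nat.one_le_two_pow
    constructor
    · norm_num
    · omega
  obtain ⟨h8, h8'⟩ := hh8
  have hq := hP.hq
  have hv := hP.hv
  have hmul : 7 * h ≤ h * q := by
    rw [mul_comm 7 h]
    exact Nat.mul_le_mul_left h hq
  have hv2 : v = (2 * q) * h + (h - 1) := by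
    have : 2 * h * q = 2 * q * h := by ring
    omega
  have hv3 : 14 * h ≤ v := by
    have : 2 * h * q = 2 * (h * q) := by ring
    omega
  clear hv hmul
  have s7 : ∀ t < v, x (t + 1) (2 * h + 7) = ex1 (x t (2 * h + 7)) (x t (2 * h + 6)) (x t (2 * h + 5)) :=
    fun t ht => hX.s2 t ht (2 * h + 5)
  have s8 : ∀ t < v, x (t + 1) (2 * h + 8) = ex1 (x t (2 * h + 8)) (x t (2 * h + 7)) (x t (2 * h + 6)) :=
    fun t ht => hX.s2 t ht (2 * h + 6)
  have v5 : ∀ B d t, t = B * h + d → d < h → t ≤ v → (x t (2 * h + 5) = true ↔ c5 B d) := by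
    rintro B d t rfl hd ht
    exact hc5 B d hd ht
  have v6 : ∀ B d t, t = B * h + d → d < h → t ≤ v → (x t (2 * h + 6) = true ↔ c6 B d) := by
    rintro B d t rfl hd ht
    exact hc6 B d hd ht
  -- the start
  have i7 : x 0 (2 * h + 7) = false := by
    have h2 : x v (2 * h + 5) = x 0 (2 * h + 7) := hX.w (2 * h + 5)
    rw [← h2]
    refine HC7_F (v5 (2 * q) (h - 1) v hv2 (by omega) le_rfl) ?_
    rintro (⟨h3, _⟩ | ⟨_, _, h3⟩ | ⟨_, h3, _⟩) <;> omega
  have i8 : x 0 (2 * h + 8) = false := by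
    have h2 : x v (2 * h + 6) = x 0 (2 * h + 8) := hX.w (2 * h + 6)
    rw [← h2]
    refine HC7_F (v6 (2 * q) (h - 1) v hv2 (by omega) le_rfl) ?_
    rintro (⟨h3, _⟩ | ⟨h3, _⟩ | ⟨h3, _⟩ | ⟨h3, _⟩ | ⟨_, h3⟩) <;> omega
  -- the first block
  have e0 := HC7_A h v (fun t => x t (2 * h + 5)) (fun t => x t (2 * h + 6)) (fun t => x t (2 * h + 7))
    (fun t => x t (2 * h + 8)) (by omega) s7 s8 i7 i8
    (fun t ht => HC7_F (v5 0 t t (by omega) ht (by omega)) (by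
      rintro (⟨h3, _⟩ | ⟨h3, _⟩ | ⟨h3, _⟩) <;> omega))
    (fun t ht h2 => HC7_T (v6 0 t t (by omega) ht (by omega)) (Or.inl ⟨rfl, h2⟩))
    (fun t ht h2 h3 => HC7_F (v6 0 t t (by omega) ht (by omega)) (by
      rintro (⟨_, h4 | h4 | h4⟩ | ⟨h4, _⟩ | ⟨h4, _⟩ | ⟨h4, _⟩ | ⟨h4, _⟩) <;> omega))
  -- `t = h, h + 1, h + 2, h + 3`
  obtain ⟨a7, -, a8, -⟩ := e0 (h - 1) (by omega)
  have a7' : x (h - 1) (2 * h + 7) = true := a7 (by omega) (by omega)
  have a8' : x (h - 1) (2 * h + 8) = true := a8 (by omega)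
  have a5 : x (h - 1) (2 * h + 5) = false := HC7_F (v5 0 (h - 1) (h - 1) (by omega) (by omega) (by omega)) (by
    rintro (⟨h3, _⟩ | ⟨h3, _⟩ | ⟨h3, _⟩) <;> omega)
  have a6 : x (h - 1) (2 * h + 6) = false := HC7_F (v6 0 (h - 1) (h - 1) (by omega) (by omega) (by omega)) (by
    rintro (⟨_, h4 | h4 | h4⟩ | ⟨h4, _⟩ | ⟨h4, _⟩ | ⟨h4, _⟩ | ⟨h4, _⟩) <;> omega)
  have eh : h - 1 + 1 = h := by omega
  have b7 : x h (2 * h + 7) = true := by
    have h3 := s7 (h - 1) (by omega)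
    rw [eh] at h3
    rw [h3]
    exact HC7_t1 a7' a6 a5
  have b8 : x h (2 * h + 8) = false := by
    have h3 := s8 (h - 1) (by omega)
    rw [eh] at h3
    rw [h3]
    exact HC7_f12 a8' a7'
  have b5 : x h (2 * h + 5) = false := HC7_F (v5 1 0 h (by omega) (by omega) (by omega)) (by
    rintro (⟨_, h3 | ⟨h3, _⟩⟩ | ⟨h3, _⟩ | ⟨h3, _⟩) <;> omega)
  have b6 : x h (2 * h + 6) = false := HC7_F (v6 1 0 h (by omega) (by omega) (by omega)) (by
    rintro (⟨h4, _⟩ | ⟨_, h4 | h4 | h4 | h4 | ⟨h4, _⟩⟩ | ⟨h4, _⟩ | ⟨h4, _⟩ | ⟨h4, _⟩) <;> omega)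
  have d7 : x (h + 1) (2 * h + 7) = true := by rw [s7 h (by omega)]; exact HC7_t1 b7 b6 b5
  have d8 : x (h + 1) (2 * h + 8) = true := by rw [s8 h (by omega)]; exact HC7_t2 b8 b7 b6
  have d6 : x (h + 1) (2 * h + 6) = true := HC7_T (v6 1 1 (h + 1) (by omega) (by omega) (by omega))
    (Or.inr (Or.inl ⟨rfl, Or.inl rfl⟩))
  have f7 : x (h + 2) (2 * h + 7) = false := by rw [s7 (h + 1) (by omega)]; exact HC7_f12 d7 d6
  have f8 : x (h + 2) (2 * h + 8) = false := by rw [s8 (h + 1) (by omega)]; exact HC7_f12 d8 d7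
  have f5 : x (h + 2) (2 * h + 5) = false := HC7_F (v5 1 2 (h + 2) (by omega) (by omega) (by omega)) (by
    rintro (⟨_, h3 | ⟨h3, _⟩⟩ | ⟨h3, _⟩ | ⟨h3, _⟩) <;> omega)
  have f6 : x (h + 2) (2 * h + 6) = true := HC7_T (v6 1 2 (h + 2) (by omega) (by omega) (by omega))
    (Or.inr (Or.inl ⟨rfl, Or.inr (Or.inl rfl)⟩))
  have g7 : x (h + 3) (2 * h + 7) = true := by rw [s7 (h + 2) (by omega)]; exact HC7_t2 f7 f6 f5
  have g8 : x (h + 3) (2 * h + 8) = true := by rw [s8 (h + 2) (by omega)]; exact HC7_t3 f8 f7 f6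
  -- the block 2
  have e2 := HC7_B h (2 * h) (fun t => x t (2 * h + 5)) (fun t => x t (2 * h + 6)) (fun t => x t (2 * h + 7))
    (fun d hd => s7 (2 * h + d) (by omega))
    (HC7_T (v5 2 0 (2 * h + 0) (by omega) (by omega) (by omega)) (Or.inr (Or.inl ⟨le_rfl, rfl, rfl⟩)))
    (HC7_T (v6 2 0 (2 * h + 0) (by omega) (by omega) (by omega)) (Or.inr (Or.inr (Or.inl ⟨rfl, rfl⟩))))
    (fun d hd h2 => HC7_T (v5 2 d (2 * h + d) (by omega) (by omega) (by omega)) (Or.inr (Or.inl ⟨le_rfl, rfl, h2⟩)))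
    (fun d hd h2 => HC7_F (v5 2 d (2 * h + d) (by omega) (by omega) (by omega)) (by
      rintro (⟨h3, _⟩ | ⟨_, _, h3⟩ | ⟨h3, _⟩) <;> omega))
    (fun d hd h2 => HC7_F (v6 2 d (2 * h + d) (by omega) (by omega) (by omega)) (by
      rintro (⟨h4, _⟩ | ⟨h4, _⟩ | ⟨_, h4⟩ | ⟨h4, _⟩ | ⟨h4, _⟩) <;> omega))
  have l7 : x (3 * h) (2 * h + 7) = true := by
    have h3 : x (2 * h + h) (2 * h + 7) = true := (e2 h (by omega) le_rfl).1 (by omega)
    have h4 : 2 * h + h = 3 * h := by omega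
    rwa [h4] at h3
  have l5 : x (3 * h) (2 * h + 5) = true := HC7_T (v5 3 0 (3 * h) (by omega) (by omega) (by omega))
    (Or.inr (Or.inr ⟨le_rfl, rfl, by norm_num⟩))
  have m7 : x (3 * h + 1) (2 * h + 7) = false := by rw [s7 (3 * h) (by omega)]; exact HC7_f13 l7 l5
  have m5 : x (3 * h + 1) (2 * h + 5) = false := HC7_F (v5 3 1 (3 * h + 1) (by omega) (by omega) (by omega)) (by
    rintro (⟨h3, _⟩ | ⟨_, h3, _⟩ | ⟨_, _, h3⟩) <;> omega)
  have m6 : x (3 * h + 1) (2 * h + 6) = false := HC7_F (v6 3 1 (3 * h + 1) (by omega) (by omega) (by omega)) (by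
    rintro (⟨h4, _⟩ | ⟨h4, _⟩ | ⟨h4, _⟩ | ⟨_, h4 | ⟨h4, _⟩⟩ | ⟨h4, _⟩) <;> omega)
  have n7 : x (3 * h + 2) (2 * h + 7) = false := by rw [s7 (3 * h + 1) (by omega)]; exact HC7_f0 m7 m6 m5
  have n5 : x (3 * h + 2) (2 * h + 5) = true := HC7_T (v5 3 2 (3 * h + 2) (by omega) (by omega) (by omega))
    (Or.inr (Or.inr ⟨le_rfl, rfl, by norm_num⟩))
  have n6 : x (3 * h + 2) (2 * h + 6) = false := HC7_F (v6 3 2 (3 * h + 2) (by omega) (by omega) (by omega)) (by
    rintro (⟨h4, _⟩ | ⟨h4, _⟩ | ⟨h4, _⟩ | ⟨_, h4 | ⟨h4, _⟩⟩ | ⟨h4, _⟩) <;> omega)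
  have o7 : x (3 * h + 3) (2 * h + 7) = true := by rw [s7 (3 * h + 2) (by omega)]; exact HC7_t3 n7 n6 n5
  have o6 : x (3 * h + 3) (2 * h + 6) = true := HC7_T (v6 3 3 (3 * h + 3) (by omega) (by omega) (by omega))
    (Or.inr (Or.inr (Or.inr (Or.inl ⟨rfl, Or.inl rfl⟩))))
  have p7 : x (3 * h + 4) (2 * h + 7) = false := by rw [s7 (3 * h + 3) (by omega)]; exact HC7_f12 o7 o6
  have p5 : x (3 * h + 4) (2 * h + 5) = true := HC7_T (v5 3 4 (3 * h + 4) (by omega) (by omega) (by omega))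
    (Or.inr (Or.inr ⟨le_rfl, rfl, by norm_num⟩))
  have p6 : x (3 * h + 4) (2 * h + 6) = false := HC7_F (v6 3 4 (3 * h + 4) (by omega) (by omega) (by omega)) (by
    rintro (⟨h4, _⟩ | ⟨h4, _⟩ | ⟨h4, _⟩ | ⟨_, h4 | ⟨h4, _⟩⟩ | ⟨h4, _⟩) <;> omega)
  have q7 : x (3 * h + 5) (2 * h + 7) = true := by rw [s7 (3 * h + 4) (by omega)]; exact HC7_t3 p7 p6 p5
  exact ⟨f7, g7, g8, o7, q7⟩

end Pool.Agent.U4
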